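import Pool.Agent.helper32.EXT.Defs7
import Pool.Agent.helper9.EXC.T11XGS
import Pool.Agent.helper33.EXC.T11XRL
import Pool.Agent.helper52.EXC.T11FML

/-!
# Project EXT (MP_561ff4_al), block H (`r = 7`, and the types `-1`, `0` for `r = 5`) for `F₄(q)`, `²E₆(q)`: the rows

RULES. Row `XXX`: file `Pool/Agent/<seat>/EXT/XXX.lean`, `import Pool.Agent.helper32.EXT.Spec7`, `set_option autoImplicit false`,
`open Finset`, `namespace Pool.Agent.EXT`, `open Pool.Agent.EXC`, theorem line exactly as in the lock note (other rows, also the rows of helper17's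
`EXT/Spec.lean`, only as hypotheses), auxiliary lemmas prefixed `XXX_`. No straight double quotes, no convert / congr!. Land, note DONE + path, one line to helper32.
Free: all `f_XXX` (rows of project EXC, see helper17's spec), the facts `hb6`, `g_XG`, `g_XRL`, `g_FML` below, everything in `Defs7.lean` (finite checks) and `Basic.lean`
of helper17 (`fm_E`, `cf_E`, `br_E_E`, signs, ...). `γ`, `κ`, `σ` in `K` are fixed scalars if `τ κ = κ`. Always `∀ x, τ (τ x) = x`.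
Many rows are `σ`-versions of rows `T11XXX` of my block `r = 11` (`Pool/Agent/*/EXC/T11*.lean`): adapt that file where it is named.

THEOREM (last row): for `K` finite and every `1 ≠ x` which permutes the long root subgroups, 6 conjugates of `x` generate a group of order divisible by 7.
-/

set_option autoImplicit false

open Finset

namespace Pool.Agent.EXT

open Pool.Agent.EXC

/-- every root of `E₆` has a root with product `-1` -/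
theorem hb6 : ∀ α, ip C6 α α = 2 → ∃ β, ip C6 β β = 2 ∧ ip C6 α β = -1 :=
  (f_NBR 6 C6 1 th ![0, 2, 3, 4, 5] f_DE6.2).1

/-- the chosen root elements `XG C6 α t` -/
theorem g_XG (K : Type) [Field K] (α : Fin 6 → ℤ) (hα : ip C6 α α = 2) (t : K) :
    IsX C6 (E C6 α) t (XG C6 α t) ∧ XG C6 α t ∈ GE C6 K ∧ (XG C6 α t)⁻¹ = XG C6 α (-t) :=
  T11XGS f_EXF f_XAU 6 C6 K hb6 α hα t

theorem g_XRL : T11XRL_stmt := T11XRL f_ACT

theorem g_FML : T11FML_stmt := T11FML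

/-! ## A. Groups -/

/-- **HCJ** (short; groups). Conjugates: replace `g i` by `g i * h`. -/
def HCJ_stmt : Prop := ∀ (G : Type) [Group G] (r k : ℕ) (y h : G), HO r k (h * y * h⁻¹) → HO r k y

/-- **YCF** (short-medium). uses: GEF, ESF, GFX, TFS, UNF. The element `Y = x(t) t⁻¹` (as `Pool/Agent/helper8/EXC/T11YCL.lean`). GEF: `a, a', m`. `t ∈ GF` with `IsF a 1 t` (GFX); `x t` is `f_{a'}(s)` (`ImF`), `s` fixed, `s ≠ 0` (otherwise `x t = 1`, `t = 1`, `0 = 1` by the injectivity in GFX). `b = s • a'`: `IsF b 1 (x t)`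
(`xe (c • a) t = xe a (c t)`, `f_XAU`, `Xtr a` from `f_EXF`), `IsF (-a) 1 (t⁻¹)`. `TpS (s • a') ((-1) • a) m` (TFS: symmetry, scalars). -/
def YCF_stmt : Prop := ∀ (K : Type) [Field K] (τ : K ≃+* K), (∀ x, τ (τ x) = x) → ∀ x : MulAut (GF τ), RAF τ x → x ≠ 1 →
  ∃ (t : GF τ) (a b : Lm C6 K) (m : ℤ), (m = -2 ∨ m = -1 ∨ m = 0) ∧ TpS τ a b m ∧ Y7 τ a b (x t * t⁻¹)

/-- **FT7** (short-medium). uses: YCF, GRQ, FXF. Assembly for any `r`, `k`. `GF τ` is finite (`K`, so `Lm C6 K` and its permutations are finite). YCF; `HO r k (x t * t⁻¹)` gives `g`, `Z`; `(MulAut.conj Z)^m = 1`: `Z^m` is central, so `1` (FXF, second part), so `r ∣ m`; GRQ. -/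
def FT7_stmt : Prop := ∀ (K : Type) [Field K] [Finite K] (τ : K ≃+* K), (∀ x, τ (τ x) = x) → ∀ (r k : ℕ), 1 ≤ k →
  (∀ (a b : Lm C6 K) (m : ℤ) (y : GF τ), (m = -2 ∨ m = -1 ∨ m = 0) → TpS τ a b m → Y7 τ a b y → HO r k y) →
  ∀ x : MulAut (GF τ), RAF τ x → x ≠ 1 → 2 * k ∈ Pool.Agent.GS.CSet r x

/-- **CNY** (short). uses: PA2, ESF, GFX, UNF. `y = f_a(1) f_b(1)`, `y' = f_{a'}(1) f_{b'}(1)` with `fm a b = fm a' b' ≠ 0` are conjugate: PA2 gives `g ∈ GS`, GFX the induced `f ∈ GF`, `f f_a(1) f⁻¹ = f_{g a}(1)` (GFX, last part; a permutation with `IsF a' 1` is unique: `Equiv.ext`, `Subtype.ext`). -/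
def CNY_stmt : Prop := ∀ (K : Type) [Field K] (τ : K ≃+* K), (∀ x, τ (τ x) = x) → ∀ (a b a' b' : Lm C6 K) (y y' : GF τ), ExS τ a → ExS τ b →
  ExS τ a' → ExS τ b' → fm C6 a b ≠ 0 → fm C6 a b = fm C6 a' b' → Y7 τ a b y → Y7 τ a' b' y' → ∃ g : GF τ, y' = g * y * g⁻¹

/-! ## B. The test module -/

/-- **LA7** (medium). The letters on `em7 v` (as `Pool/Agent/helper48/EXC/T11LA8.lean`): linear in `v`; on `E (mu7 i)` and `E (pv (mu7 i))` use `ta7_spec` and `f_ACT`. -/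
def LA7_stmt : Prop := ∀ (K : Type) [Field K] (k : Fin 24) (t : K) (v : Fin 8 → K), xe C6 (E C6 (lt7 k)) t (em7 v) = em7 (st7 k t v)

/-- **EM7** (short-medium). uses: SIG. `em7 v` is fixed by `σ` if the coordinates are (`σ E γ = sn γ E(πγ)`, `sn(πγ) = sn γ`, `sn² = 1`; `RTF`-facts are needed only for the 8 roots: `decide +kernel`); the coordinates of `em7 v` (`cf` at `mu7 i`; `mu7_inj`). -/
def EM7_stmt : Prop := ∀ (K : Type) [Field K] (τ : K ≃+* K), (∀ x, τ (τ x) = x) → (∀ v : Fin 8 → K, (∀ i, τ (v i) = v i) → em7 v ∈ LT τ) ∧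
  ∀ v w : Fin 8 → K, em7 v = em7 w → v = w

/-- **WA7** (medium). uses: LA7, SGR. Words. `gw7 χ c l ∈ GS τ` (each letter is a long root element with fixed parameter; SGR gives an element of `GS` with the same values), inverse (`g_XG`), products, action on `em7` (induction on `l`; as `Pool/Agent/helper84/EXC/T11WA8.lean`): `x_α(t c^χ(α))` maps the coordinates `v_i c^χ(mu7 i)` to
`(sz7 k t v)_i c^χ(mu7 i)`, since `mu7 j = α + mu7 i` in the two entries of `ta7_spec`, `cv7 χ` is additive and `c^(m+n) = c^m c^n` (`zpow_add₀`). -/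
def WA7_stmt : Prop := ∀ (K : Type) [Field K] (τ : K ≃+* K), (∀ x, τ (τ x) = x) → ∀ (χ : Fin 6 → ℤ) (c : K), τ c = c → c ≠ 0 → ∀ l l' : List (Fin 24 × ℤ),
  gw7 χ c l ∈ GS τ ∧ gw7 χ c (wi7 l) = (gw7 χ c l)⁻¹ ∧ gw7 χ c (l ++ l') = gw7 χ c l * gw7 χ c l' ∧
  ∀ v : Fin 8 → ℤ, gw7 χ c l (em7 fun i => (v i : K) * c ^ (cv7 χ (mu7 i))) = em7 fun i => (az7 l v i : K) * c ^ (cv7 χ (mu7 i))

/-- **OR7** (short-medium). uses: WA7, EM7. The order. `w = em7 (e7v_i c^χ(mu7 i)) ∈ LT τ`; `Z` acts on the vectors `em7 (v_i c^χ(mu7 i))`, `v` integral, as `az7 l`; so `Z^r w = w` and `Z w ≠ w` (the difference of a coordinate is `± c^.. ≠ 0`; EM7). `r` prime, `Z^N = 1`: if `r ∤ N` then `Z w = w` (the minimal period of `w` divides `r` and `N`,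
`Function.minimalPeriod`; as `Pool/Agent/helper25/EXC/T11OR8.lean`). -/
def OR7_stmt : Prop := ∀ (K : Type) [Field K] (τ : K ≃+* K), (∀ x, τ (τ x) = x) → ∀ (χ : Fin 6 → ℤ) (c : K), τ c = c → c ≠ 0 →
  ∀ (r : ℕ) (l : List (Fin 24 × ℤ)), r.Prime → (az7 l)^[r] e7v = e7v → (∃ i, az7 l e7v i - e7v i = 1 ∨ az7 l e7v i - e7v i = -1) →
  ∀ Z : Equiv.Perm (LT τ), (∀ v : LT τ, (Z v : Lm C6 K) = gw7 χ c l v) → ∀ N : ℕ, Z ^ N = 1 → r ∣ N

/-! ## C. Types `-1` and `0` (both primes 7 and 5) -/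

/-- **Z7G** (medium). uses: PAR, GFX, ESF, TFS, WA7, OR7, HCJ. General form. PAR (`β = th`, `δ = lt7 d`): `g a = E th`, `g b = κ E δ`, `c = k₀ κ`. `f_g ∈ GF` (GFX); `y' = f_g y f_g⁻¹ = f_{E th}(1) f_{κ E δ}(1)` acts on `LT` as `x_th(1) x_δ(κ) = gw7 χ c [(11, 1), (d, k₀)]` (`lt7 11 = th` is `lt7_th`; `c^0 = 1`, `k₀ c^1 = κ`).
For a word `h` let `f_h ∈ GF` be induced by `gw7 χ c h ∈ GS` (WA7, GFX). `Z` is the product of the `f_h y' f_h⁻¹`, `h ∈ hs`: it acts as `gw7 χ c (cw7 [(11, 1), (d, k₀)] hs)` (induction on `hs`, WA7), so OR7 applies; it is in the closure (`Subgroup.list_prod_mem`); `g i` is given by the `i`-th word. HCJ. -/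
def Z7G_stmt : Prop := ∀ (K : Type) [Field K] (τ : K ≃+* K), (∀ x, τ (τ x) = x) → ∀ (d : Fin 24) (k₀ : ℤ) (χ : Fin 6 → ℤ) (r : ℕ)
  (hs : List (List (Fin 24 × ℤ))), (k₀ = 1 ∨ k₀ = -1) → cv7 χ th = 0 → cv7 χ (lt7 d) = 1 → r.Prime →
  (az7 (cw7 [(11, 1), (d, k₀)] hs))^[r] e7v = e7v →
  (∃ i, az7 (cw7 [(11, 1), (d, k₀)] hs) e7v i - e7v i = 1 ∨ az7 (cw7 [(11, 1), (d, k₀)] hs) e7v i - e7v i = -1) →
  ∀ (a b : Lm C6 K) (y : GF τ), TpS τ a b (ip C6 th (lt7 d)) → Y7 τ a b y → HO r hs.length y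

/-- **Z7A** (short). uses: Z7G. The data `j = 0, 1` (`r = 7`, `m = -1, 0`) and `j = 2, 3` (`r = 5`, `m = -1, 0`): `ch7_spec`, `zw7_r`, `zw7_1`, `lt7_th`, `hs7_len`. -/
def Z7A_stmt : Prop := ∀ (K : Type) [Field K] (τ : K ≃+* K), (∀ x, τ (τ x) = x) → ∀ (a b : Lm C6 K) (m : ℤ) (y : GF τ), (m = -1 ∨ m = 0) →
  TpS τ a b m → Y7 τ a b y → HO 7 3 y ∧ HO 5 2 y

/-! ## D. Type `-2` -/

/-- **BXS** (medium). uses: PCS, PAR, TFS, ESF, SIG, SGR. Independent long root vectors `c`, `c'`: there is a long root vector `b` with prescribed `fm c b = k`, `fm c' b = k'`. PCS: type `m`, `m ≠ 2` (TFS). PAR with `β = th` and `δ = β₀`: `β₀ = th - sr 1`, `sr 3`, `-sr 1`, `-th` for `m = 1, 0, -1, -2`: `g c = E th`, `g c' = κ E β₀`; find `b'` in `ExS`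
with coefficient `k` at `-th` and `l = k'/κ` at `-β₀` (`fm_E`), then `b = g⁻¹ b'`. Each `b'` is a product of elements `x_α(t)`, `α` long, `t` fixed (in `GS`), applied to a multiple of a long root vector; use `f_ACT` (`ε = sg(..)` are the signs which occur). With `α = sr 1`, `β' = th - sr 1`:
`m = 1`: `x_α(t) (k E(-th)) = k E(-th) + k t ε E(-β₀)`, `t = ε l/k`.
`m = 0`: `η = sr 1 + sr 3`: `x_{sr 1}(u) x_{η-th}(t) E(-η)`: coefficients `t ε` at `-th`, `u ε'` at `-sr 3` (the other terms: `E(-η)`, `E(sr 1 - th)`).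
`m = -1`: `x_th(t) x_α(1) (k E(-th)) = x_th(t) (k E(-th) + k ε E(α-th))`: coefficients `k` at `-th`, `k t ε ε'` at `α`.
`m = -2`: `x_th(1)(k E(-th)) = k (E(-th) - h_th + E th)`; `x_β'(c)` gives `k (E(-th) + c ε₁ E(-α) - h_th + c E β' + E th)`; `x_α(1)` gives coefficient `k` at `-th` and `k (1 + c ε₃)` at `th`, `ε₃ = sg(α, β')`; `c = ε₃ (l/k - 1)`. -/
def BXS_stmt : Prop := ∀ (K : Type) [Field K] (τ : K ≃+* K), (∀ x, τ (τ x) = x) → ∀ c c' : Lm C6 K, ExS τ c → ExS τ c' → (∀ κ : K, c' ≠ κ • c) →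
  ∀ k k' : K, τ k = k → τ k' = k' → k ≠ 0 → k' ≠ 0 → ∃ b, ExS τ b ∧ fm C6 c b = k ∧ fm C6 c' b = k'

/-- **SLS** (short-medium). uses: PCS, PAR, TFS, ESF, SGR. `x_c(1) x_a(1) = x_{a+c}(1)` (as `Pool/Agent/helper39/EXC/T11SGL.lean`). `TpS c c 2` (PCS, TFS), PAR with `β = δ = th`: `g c = E th`, so `c = E th` without loss of generality (transport with `g⁻¹`: `g (xe a t v) = xe (g a) t (g v)`, `f_XAU`). `β' = th - sr 1` (a long root, `(th, β') = 1`): `a = E β'`, `b = σ E(-β')`,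
`a' = E β' + E th = x_{sr 1}(± 1) E β'` (in `ExS`); `fm a b = σ`, `fm (E th) b = 0`; `x_{a'}(1) = x_th(1) x_β'(1)` (`f_COL`). -/
def SLS_stmt : Prop := ∀ (K : Type) [Field K] (τ : K ≃+* K), (∀ x, τ (τ x) = x) → ∀ (c : Lm C6 K) (σ : K), ExS τ c → τ σ = σ → σ ≠ 0 →
  ∃ a b a' : Lm C6 K, ExS τ a ∧ ExS τ b ∧ ExS τ a' ∧ fm C6 a b = σ ∧ fm C6 a' b = σ ∧ ∀ v, xe C6 c 1 (xe C6 a 1 v) = xe C6 a' 1 v

/-- **TE7** (short-medium). uses: ESF, WA7. The three root elements `x_(c7 i)(1)` are the words `tw7 i` (`ESF`, last part, `g = gw7 0 1 (wd7 i) ∈ GS`, `h = XG (lt7 (bs7 i)) 1`; `1^n = 1`). -/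
def TE7_stmt : Prop := ∀ (K : Type) [Field K] (τ : K ≃+* K), (∀ x, τ (τ x) = x) → ∀ i : Fin 3, ExS τ (c7 K i) ∧
  IsX C6 (c7 K i) 1 (gw7 0 (1 : K) (tw7 i))

/-- **CV7** (short-medium). The vectors `c7 i` as lists: `c7 i = ls (cl7 i)` (`g_XRL` for each letter, conditions `cl7_ok`; `fin_cases i`; as `Pool/Agent/helper35/EXC/T11CV8.lean`), then `g_FML`, `fml7`, `cfl7`, `cl7_root`. -/
def CV7_stmt : Prop := ∀ (K : Type) [Field K], fm C6 (c7 K 0) (c7 K 1) = 1 ∧ ∀ κ κ' : K, κ' ≠ 0 → κ' • c7 K 0 ≠ κ • c7 K 2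

/-- **Z72** (medium). uses: TE7, CV7, OR7, WA7, BXS, SLS, ESF, GFX, SIG. Type `-2`, `σ ≠ 0` (as `Pool/Agent/helper44/EXC/T11ZM2.lean`). `T_i = f_(c7 i)(1) ∈ GF`; `z = T_0 T_1 T_2` acts as `gw7 0 1 zt7`, so `z^N = 1` implies `7 ∣ N` (OR7, `zt7_7`). `s = 1 - σ`.
`s ≠ 0`: `S = f_(s c7 0)(1)`, `T_0 = S f_((1-s) c7 0)(1)`, `y_0 = f_((1-s) c7 0)(1) T_1`, `fm = σ` (CV7). BXS for `c7 2`, `-s c7 0` (independent by CV7): `b` with `fm (c7 2) b = σ = fm (-s c7 0) b`; `y_1 = T_2 f_b(1)`, `y_2 = f_(-s c7 0)(1) f_b(1)`: `y_1 y_2⁻¹ = T_2 S`. `z = S y_0 T_2`, so `y_0 y_1 y_2⁻¹ = S⁻¹ z S`.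
`s = 0`: `y_0 = T_0 T_1`; SLS for `c7 2`: `T_2 f_a(1) = f_{a'}(1)`, `y_1 = f_{a'}(1) f_b(1)`, `y_2 = f_a(1) f_b(1)`: `y_1 y_2⁻¹ = T_2`, `y_0 y_1 y_2⁻¹ = z`. Scalars: `xe (c • a) t = xe a (c t)`. -/
def Z72_stmt : Prop := ∀ (K : Type) [Field K] (τ : K ≃+* K), (∀ x, τ (τ x) = x) → ∀ σ : K, τ σ = σ → σ ≠ 0 → ∃ y : Fin 3 → GF τ,
  (∀ i, ∃ a b, ExS τ a ∧ ExS τ b ∧ fm C6 a b = σ ∧ Y7 τ a b (y i)) ∧ ∀ N : ℕ, (y 0 * y 1 * (y 2)⁻¹) ^ N = 1 → 7 ∣ N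

/-- **Z7B** (short). uses: Z72, CNY, TFS, ESF, SIG. `σ = fm a b ≠ 0` (TFS), fixed by `τ` (SIG, ESF: `a`, `b` are fixed by `σ`); CNY: `y i = g i * y * (g i)⁻¹`; `Z = y 0 * y 1 * (y 2)⁻¹`. -/
def Z7B_stmt : Prop := ∀ (K : Type) [Field K] (τ : K ≃+* K), (∀ x, τ (τ x) = x) → ∀ (a b : Lm C6 K) (y : GF τ), TpS τ a b (-2) → Y7 τ a b y → HO 7 3 y

/-! ## E. The theorem -/

/-- **T7** (short). uses: FT7, Z7A, Z7B. -/
def T7_stmt : Prop := ∀ (K : Type) [Field K] [Finite K] (τ : K ≃+* K), (∀ x, τ (τ x) = x) → ∀ x : MulAut (GF τ), RAF τ x → x ≠ 1 →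
  6 ∈ Pool.Agent.GS.CSet 7 x

end Pool.Agent.EXT
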