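import Pool.Agent.helper17.EXT.Spec
import Pool.Agent.helper32.EXC.Spec11

/-!
# Project EXT (MP_561ff4_al), block H (`r = 7`; also `r = 5` for the types `-1`, `0`) for `F₄(q)`, `²E₆(q)`: definitions and the explicit data

All finite checks are done here. The 24 long roots `lt7 k` form a root system `D₄`; the 8 short roots `mu7 i` are the weights of one of its
8-dimensional modules, each letter `x_(lt7 k)(t)` moves exactly two of the `E (mu7 i)` (table `ta7`). Words are lists of pairs (number of the letter, `t ∈ ℤ`); in a word the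
letter `(k, t)` stands for `x_(lt7 k)(t c^χ(lt7 k))`, where `c` is a fixed scalar and `χ` an integral character: the action on the coordinates `v_i c^χ(mu7 i)` does not depend on `c`.
-/

set_option autoImplicit false

open Finset

namespace Pool.Agent.EXT

open Pool.Agent.EXC

/-! ## General notions -/

/-- the class of `y` generates with `k` elements a group with an element `Z` whose order is divisible by `r` -/
def HO (r k : ℕ) {G : Type} [Group G] (y : G) : Prop :=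
  ∃ (g : Fin k → G) (Z : G), Z ∈ Subgroup.closure (Set.range fun i => g i * y * (g i)⁻¹) ∧ ∀ N : ℕ, Z ^ N = 1 → r ∣ N

/-- `y = f_a(1) f_b(1)` -/
def Y7 {K : Type} [Field K] (τ : K ≃+* K) (a b : Lm C6 K) (y : GF τ) : Prop :=
  ∃ g h : GF τ, IsF τ a 1 (g : Equiv.Perm (LT τ)) ∧ IsF τ b 1 (h : Equiv.Perm (LT τ)) ∧ y = g * h

/-- the value of the character `χ` -/
def cv7 (χ v : Fin 6 → ℤ) : ℤ := ∑ i, χ i * v i

/-! ## The data -/

/-- the 8 short roots -/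
def mu7 : Fin 8 → Fin 6 → ℤ :=
  ![![1, 1, 1, 2, 1, 0], ![1, 1, 1, 1, 1, 0], ![1, 0, 1, 1, 1, 0], ![1, 0, 0, 0, 0, 0],
    ![0, -1, -1, -2, -1, -1], ![0, -1, -1, -1, -1, -1], ![0, 0, -1, -1, -1, -1], ![0, 0, 0, 0, 0, -1]]

/-- the 24 letters (long roots) -/
def lt7 : Fin 24 → Fin 6 → ℤ :=
  ![![0, 0, 0, 1, 0, 0], ![0, 1, 0, 0, 0, 0], ![0, 1, 0, 1, 0, 0], ![0, 0, 1, 1, 1, 0],
    ![0, 1, 1, 1, 1, 0], ![0, 1, 1, 2, 1, 0], ![1, 0, 1, 1, 1, 1], ![1, 1, 1, 1, 1, 1],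
    ![1, 1, 1, 2, 1, 1], ![1, 1, 2, 2, 2, 1], ![1, 1, 2, 3, 2, 1], ![1, 2, 2, 3, 2, 1],
    ![0, 0, 0, -1, 0, 0], ![0, -1, 0, 0, 0, 0], ![0, -1, 0, -1, 0, 0], ![0, 0, -1, -1, -1, 0],
    ![0, -1, -1, -1, -1, 0], ![0, -1, -1, -2, -1, 0], ![-1, 0, -1, -1, -1, -1], ![-1, -1, -1, -1, -1, -1],
    ![-1, -1, -1, -2, -1, -1], ![-1, -1, -2, -2, -2, -1], ![-1, -1, -2, -3, -2, -1], ![-1, -2, -2, -3, -2, -1]]

/-- the action of the letter `k`: `E (mu7 i) ↦ E (mu7 i) + t ε E (mu7 j)` for the two entries `(i, j, ε)` -/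
def ta7 : Fin 24 → Fin 8 × Fin 8 × ℤ × Fin 8 × Fin 8 × ℤ :=
  ![(1, 0, 1, 4, 5, -1), (2, 1, -1, 5, 6, 1), (2, 0, -1, 4, 6, 1), (3, 2, 1, 6, 7, 1),
    (3, 1, 1, 5, 7, 1), (3, 0, 1, 4, 7, 1), (6, 3, 1, 7, 2, 1), (5, 3, 1, 7, 1, 1),
    (4, 3, 1, 7, 0, 1), (5, 2, 1, 6, 1, -1), (4, 2, 1, 6, 0, -1), (4, 1, -1, 5, 0, 1),
    (0, 1, -1, 5, 4, 1), (1, 2, 1, 6, 5, -1), (0, 2, 1, 6, 4, -1), (2, 3, -1, 7, 6, -1),
    (1, 3, -1, 7, 5, -1), (0, 3, -1, 7, 4, -1), (2, 7, -1, 3, 6, -1), (1, 7, -1, 3, 5, -1),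
    (0, 7, -1, 3, 4, -1), (1, 6, 1, 2, 5, -1), (0, 6, 1, 2, 4, -1), (0, 5, -1, 1, 4, 1)]

/-- the inverse word -/
def wi7 (l : List (Fin 24 × ℤ)) : List (Fin 24 × ℤ) := (l.map fun p => (p.1, -p.2)).reverse

/-- the product of the conjugates of the word `y` under the words of `hs` -/
def cw7 (y : List (Fin 24 × ℤ)) (hs : List (List (Fin 24 × ℤ))) : List (Fin 24 × ℤ) := hs.flatMap fun h => h ++ y ++ wi7 h

/-- the second root of the pair -/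
def kd7 : Fin 4 → Fin 24 := ![13, 0, 13, 0]

/-- the sign -/
def k7 : Fin 4 → ℤ := ![1, -1, 1, -1]

/-- the primes -/
def r7 : Fin 4 → ℕ := ![7, 7, 5, 5]

/-- the types -/
def m7 : Fin 4 → ℤ := ![-1, 0, -1, 0]

/-- the characters -/
def ch7 : Fin 4 → Fin 6 → ℤ := ![![1, -1, 0, 0, 0, 1], ![-1, -1, 0, 1, 0, 0], ![1, -1, 0, 0, 0, 1], ![-1, -1, 0, 1, 0, 0]]

/-- the words `h_i` -/
def hs7 : Fin 4 → List (List (Fin 24 × ℤ)) :=
  ![[[], [(8, -1), (14, -1), (23, 1)], [(22, 1), (18, 1)]],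
    [[], [(22, -1), (17, -1), (21, 1), (9, 1)], [(20, -1), (7, -1)]],
    [[], [(2, -1), (23, -1), (1, 1), (14, -1)]],
    [[], [(20, -1), (17, 1), (23, 1)]]]

/-- the words of the three root elements of type `-2` (`T_i = w_i x_base(1) w_i⁻¹`) -/
def wd7 : Fin 3 → List (Fin 24 × ℤ) := ![[(11, 1)], [(3, -1)], [(0, -1), (9, -1), (4, 2)]]

/-- the base letters -/
def bs7 : Fin 3 → Fin 24 := ![20, 16, 15]

/-- the word of the root element `T_i` -/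
def tw7 (i : Fin 3) : List (Fin 24 × ℤ) := wd7 i ++ [(bs7 i, 1)] ++ wi7 (wd7 i)

/-- the word of `T_0 T_1 T_2` -/
def zt7 : List (Fin 24 × ℤ) := tw7 0 ++ tw7 1 ++ tw7 2

/-- the action of a letter on the coordinates -/
def st7 {R : Type} [CommRing R] (k : Fin 24) (t : R) (v : Fin 8 → R) : Fin 8 → R :=
  fun j => v j + (if j = (ta7 k).2.1 then t * ((ta7 k).2.2.1 : R) * v (ta7 k).1 else 0) +
    (if j = (ta7 k).2.2.2.2.1 then t * ((ta7 k).2.2.2.2.2 : R) * v (ta7 k).2.2.2.1 else 0)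

/-- the same over `ℤ`, without casts -/
def sz7 (k : Fin 24) (t : ℤ) (v : Fin 8 → ℤ) : Fin 8 → ℤ :=
  fun j => v j + (if j = (ta7 k).2.1 then t * (ta7 k).2.2.1 * v (ta7 k).1 else 0) +
    (if j = (ta7 k).2.2.2.2.1 then t * (ta7 k).2.2.2.2.2 * v (ta7 k).2.2.2.1 else 0)

/-- the action of a word on integer coordinates (the first letter acts last) -/
def az7 (l : List (Fin 24 × ℤ)) (v : Fin 8 → ℤ) : Fin 8 → ℤ := l.foldr (fun p v => sz7 p.1 p.2 v) v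

/-- the first coordinate vector -/
def e7v : Fin 8 → ℤ := ![1, 0, 0, 0, 0, 0, 0, 0]

/-! ## The finite checks -/

theorem lt7_LR : ∀ k, ip C6 (lt7 k) (lt7 k) = 2 ∧ pv (lt7 k) = lt7 k := by decide +kernel

theorem lt7_th : lt7 11 = th ∧ (∀ j, ip C6 th (lt7 (kd7 j)) = m7 j) := by decide +kernel

theorem mu7_root : ∀ i, ip C6 (mu7 i) (mu7 i) = 2 ∧ ip C6 (pv (mu7 i)) (pv (mu7 i)) = 2 ∧ pv (mu7 i) ≠ mu7 i := by decide +kernel

theorem mu7_inj : ∀ i j, (mu7 i = mu7 j → i = j) ∧ pv (mu7 i) ≠ mu7 j := by decide +kernel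

/-- the table `ta7` is correct: `i` is the first source, or the second source, or the letter fixes `E (mu7 i)` -/
theorem ta7_spec : ∀ k i, (i = (ta7 k).1 ∧ i ≠ (ta7 k).2.2.2.1 ∧ ip C6 (lt7 k) (mu7 i) = -1 ∧ mu7 (ta7 k).2.1 = lt7 k + mu7 i ∧
      sg C6 (lt7 k) (mu7 i) = (ta7 k).2.2.1 ∧ ip C6 (lt7 k) (pv (mu7 i)) = -1 ∧ pv (mu7 (ta7 k).2.1) = lt7 k + pv (mu7 i) ∧
      sn (mu7 i) * sg C6 (lt7 k) (pv (mu7 i)) = (ta7 k).2.2.1 * sn (mu7 (ta7 k).2.1)) ∨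
    (i = (ta7 k).2.2.2.1 ∧ i ≠ (ta7 k).1 ∧ ip C6 (lt7 k) (mu7 i) = -1 ∧ mu7 (ta7 k).2.2.2.2.1 = lt7 k + mu7 i ∧
      sg C6 (lt7 k) (mu7 i) = (ta7 k).2.2.2.2.2 ∧ ip C6 (lt7 k) (pv (mu7 i)) = -1 ∧ pv (mu7 (ta7 k).2.2.2.2.1) = lt7 k + pv (mu7 i) ∧
      sn (mu7 i) * sg C6 (lt7 k) (pv (mu7 i)) = (ta7 k).2.2.2.2.2 * sn (mu7 (ta7 k).2.2.2.2.1)) ∨
    (i ≠ (ta7 k).1 ∧ i ≠ (ta7 k).2.2.2.1 ∧ 0 ≤ ip C6 (lt7 k) (mu7 i) ∧ 0 ≤ ip C6 (lt7 k) (pv (mu7 i))) := by decide +kernel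

theorem ch7_spec : ∀ j, cv7 (ch7 j) th = 0 ∧ cv7 (ch7 j) (lt7 (kd7 j)) = 1 ∧ (k7 j = 1 ∨ k7 j = -1) ∧ (r7 j).Prime := by
  intro j
  fin_cases j <;> exact ⟨by decide +kernel, by decide +kernel, by decide +kernel, by simp [r7]; norm_num⟩

theorem hs7_len : ∀ j, (hs7 j).length = if r7 j = 7 then 3 else 2 := by decide +kernel

set_option maxRecDepth 100000 in
/-- the power `r` of the product of the conjugates fixes `E (mu7 0)` -/
theorem zw7_r : ∀ j, (az7 (cw7 [(11, 1), (kd7 j, k7 j)] (hs7 j)))^[r7 j] e7v = e7v := by decide +kernel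

set_option maxRecDepth 100000 in
/-- and the product moves `E (mu7 0)` -/
theorem zw7_1 : ∀ j, ∃ i, az7 (cw7 [(11, 1), (kd7 j, k7 j)] (hs7 j)) e7v i - e7v i = 1 ∨
    az7 (cw7 [(11, 1), (kd7 j, k7 j)] (hs7 j)) e7v i - e7v i = -1 := by decide +kernel

set_option maxRecDepth 100000 in
theorem zt7_7 : (az7 zt7)^[7] e7v = e7v ∧ ∃ i, az7 zt7 e7v i - e7v i = 1 ∨ az7 zt7 e7v i - e7v i = -1 := by decide +kernel

/-- the vectors `w_i E (base)` as lists -/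
def cl7 (i : Fin 3) : List ((Fin 6 → ℤ) × ℤ) := (wd7 i).foldr (fun p l => xr C6 (lt7 p.1) p.2 l) [(lt7 (bs7 i), 1)]

/-- all entries of a list are roots with products `≥ -1` with `α` -/
def okl7 (α : Fin 6 → ℤ) (l : List ((Fin 6 → ℤ) × ℤ)) : Prop := ∀ p ∈ l, ip C6 p.1 p.1 = 2 ∧ -1 ≤ ip C6 α p.1

instance (α : Fin 6 → ℤ) (l : List ((Fin 6 → ℤ) × ℤ)) : Decidable (okl7 α l) := by unfold okl7; infer_instance

/-- in the computation of `cl7` all products are `≥ -1` (for every tail of a word) -/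
theorem cl7_ok : ∀ i : Fin 3, ∀ j : Fin 3, ∀ p ∈ ((wd7 i).drop j).head?,
    okl7 (lt7 p.1) (((wd7 i).drop (j + 1)).foldr (fun p l => xr C6 (lt7 p.1) p.2 l) [(lt7 (bs7 i), 1)]) := by
  decide +kernel

theorem cl7_root : ∀ i : Fin 3, ∀ p ∈ cl7 i, ip C6 p.1 p.1 = 2 := by decide +kernel

theorem fml7 : fml (cl7 0) (cl7 1) = 1 := by decide +kernel

theorem cfl7 : cfl (cl7 0) ![1, 1, 1, 1, 1, 1] = 0 ∧ cfl (cl7 2) ![1, 1, 1, 1, 1, 1] = -1 := by decide +kernel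

section data
variable {K : Type} [Field K]

/-- the vector with the coordinates `v` on `E (mu7 i) + sn E (π mu7 i)` -/
noncomputable def em7 (v : Fin 8 → K) : Lm C6 K := ∑ i, v i • ((E C6 (mu7 i) : Lm C6 K) + (sn (mu7 i) : K) • (E C6 (pv (mu7 i)) : Lm C6 K))

/-- the element of the group of a word -/
noncomputable def gw7 (χ : Fin 6 → ℤ) (c : K) (l : List (Fin 24 × ℤ)) : Lm C6 K ≃ₗ[K] Lm C6 K :=
  (l.map fun p => XG C6 (lt7 p.1) ((p.2 : K) * c ^ (cv7 χ (lt7 p.1)))).prod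

variable (K) in
/-- the long root vectors of the elements `T_i` -/
noncomputable def c7 (i : Fin 3) : Lm C6 K := gw7 0 (1 : K) (wd7 i) (E C6 (lt7 (bs7 i)))

end data

end Pool.Agent.EXT
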